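import Pool.Agent.H70.RZT.S
import Pool.Agent.H94.T1.ZLDA

/-!
# RZT, row LDAN: the classes of the twist over an extension, at an unramified prime
-/

set_option autoImplicit false

namespace Pool.RZT

open Polynomial NumberField Pool.HYP Pool.TOW Pool.AVS Pool.T1 Pool.NF IsDedekindDomain
open Pool.HYP.Lda24 Pool.T1.Zlda94

/-- **LDAN**, from EVN of HYP and UDAN. -/
theorem ldan (hE : EVNStmt) (hI : UDANStmt) : LDANStmt := by
  intro K _ _ g P ϖ E _ _ L _ O' ι hC f d p hf hfd hS hd hα hn hL fO' hfO'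
  obtain ⟨fO, h3, h4, h5, h6⟩ := hI K P ϖ L O' (ι.comp (algebraMap K E)) hC f hf
  have hfO : fO' = fO := Pool.TOW78.oL_inj (by rw [hfO', h5, fkE_map])
  subst hfO
  rw [← fkE_map] at h5
  obtain ⟨u, w, s, hu, hc, hw, hs⟩ := hL
  have hU : UI (O' : Set L) (ι (algebraMap K E (algebraMap (𝓞 K) K d))) := unit_of_not_mem hC hd
  rw [fkE_scale f hf d ι, ← h5] at hc hw
  rw [← h5] at hs
  generalize ι (algebraMap K E (algebraMap (𝓞 K) K d)) = D at hU hc hw hs
  have hD0 : D ≠ 0 := hU.1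
  have hdeg : (oL O' fO').natDegree = 2 * g + 1 := by
    rw [h3.natDegree_map, h4, hfd]
  have hcm : IsCoprime (u.comp (C D * X)) (oL O' fO') := by
    obtain ⟨a, b, hab⟩ := hc
    refine ⟨a.comp (C D * X), b.comp (C D * X) * C (D ^ (2 * g + 1)), ?_⟩
    have := congrArg (fun p => p.comp (C D * X)) hab
    simp only [add_comp, mul_comp, one_comp, scale_comp, hdeg] at this
    rw [mul_assoc]
    exact this
  refine hE L O' ((ι.comp (algebraMap K E)) (algebraMap (𝓞 K) K ϖ)) hC.loc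
    ⟨(ι.comp (algebraMap K E)) (algebraMap (𝓞 K) K ϖ), hC.loc.pi_mem⟩ fO'
    (C ((D ^ u.natDegree)⁻¹) * u.comp (C D * X)) (C ((D ^ g)⁻¹) * w.comp (C D * X)) s (p.map ι)
    D ((-D) ^ u.natDegree) rfl h3 ⟨g, by rw [h4, hfd]⟩
    (fun γ hγ hγi hin => hS (h6 _ rfl γ hγ hγi hin)) (monic_comp hu hD0) ?_ hU
    (ui_pow (ui_neg hU) _) ?_ ?_ ?_ ?_
  · refine IsCoprime.mul_left ?_ hcm
    refine ⟨C (D ^ u.natDegree), 0, ?_⟩
    rw [← C_mul, mul_inv_cancel₀ (pow_ne_zero _ hD0), C_1, zero_mul, add_zero]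
  · obtain ⟨q, hq⟩ := hw
    refine ⟨C (D ^ u.natDegree * ((D ^ g)⁻¹) ^ 2) * q.comp (C D * X), ?_⟩
    have h8 := congrArg (fun p => p.comp (C D * X)) hq
    simp only [sub_comp, pow_comp, mul_comp, scale_comp, hdeg] at h8
    have e1 : (C ((D ^ g)⁻¹) : L[X]) ^ 2 * C (D ^ (2 * g + 1)) = C D := by
      rw [← C_pow, ← C_mul]
      congr 1
      field_simp
      ring
    have e2 : (C ((D ^ u.natDegree)⁻¹) : L[X]) * C (D ^ u.natDegree * ((D ^ g)⁻¹) ^ 2) =
        C ((D ^ g)⁻¹) ^ 2 := by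
      rw [← C_pow, ← C_mul]
      congr 1
      field_simp
    calc (C ((D ^ g)⁻¹) * w.comp (C D * X)) ^ 2 - C D * oL O' fO'
        = C ((D ^ g)⁻¹) ^ 2 * (w.comp (C D * X) ^ 2 - C (D ^ (2 * g + 1)) * oL O' fO') := by
          rw [← e1]
          ring
      _ = (C ((D ^ u.natDegree)⁻¹) * C (D ^ u.natDegree * ((D ^ g)⁻¹) ^ 2)) *
          (u.comp (C D * X) * q.comp (C D * X)) := by
          rw [h8, e2]
      _ = _ := by ring
  · have e3 : C ((-D) ^ u.natDegree) * (C ((D ^ u.natDegree)⁻¹) * u.comp (C D * X)) =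
        kap (u.comp (C D * X)) := by
      unfold HYP.kap
      rw [nat_comp u hD0, ← mul_assoc, ← C_mul]
      congr 1
      rw [neg_pow, mul_assoc, mul_inv_cancel₀ (pow_ne_zero _ hD0), mul_one]
      simp
    rw [e3]
    exact hs
  · rw [h5]
    exact hα.map (mapRingHom ι)
  · rw [h5]
    unfold NSq
    rw [nmu.2.2.2 _ _ ι _ _ (hf.map _ |>.map _)]
    exact hn.map ι

end Pool.RZT
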